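import Pool.Agent.Helper74.WB.St

/-! # Project WB (MP_26f0da_lc): module BAS, a letter which is never cancelled -/

set_option autoImplicit false

namespace Pool.Agent.Helper31.WB

open Pool.Agent.Helper74 Pool.Agent.Helper74.WB

private theorem ap_bas {Λ : Type} (π x : Λ × Bool) (δ σ : List (Λ × Bool)) (h : x ≠ iv π) :
    ∃ δ', ap x (δ ++ π :: σ) = δ' ++ π :: σ ∧ ∀ y ∈ δ', y ∈ δ ∨ y = x := by
  cases δ with
  | nil =>
    refine ⟨[x], ?_, fun y hy => Or.inr (by simpa using hy)⟩
    rw [List.nil_append, ap_push x π σ (fun hc => h (by rw [hc, iv_iv]))]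
    rfl
  | cons y δ =>
    by_cases hy : y = iv x
    · subst hy
      refine ⟨δ, ?_, fun z hz => Or.inl (List.mem_cons_of_mem _ hz)⟩
      rw [List.cons_append, ap_cancel]
    · refine ⟨x :: y :: δ, ?_, fun z hz => ?_⟩
      · rw [List.cons_append, ap_push x y _ hy]
        rfl
      · rcases List.mem_cons.1 hz with hz | hz
        · exact Or.inr hz
        · exact Or.inl hz

theorem hBAS : StBAS := by
  intro Λ π δ σ
  constructor
  · intro w
    induction w generalizing δ with
    | nil =>
      intro τ _ h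
      have h' : δ ++ π :: σ = τ := h
      exact ⟨δ, h'.symm, fun x hx => Or.inl hx⟩
    | cons a w ih =>
      rcases a with ⟨x, o⟩
      intro τ hw h
      have hx : x ≠ iv π := hw (x, o) (by simp)
      have hw' : ∀ a ∈ w, a.1 ≠ iv π := fun a ha => hw a (List.mem_cons_of_mem _ ha)
      rw [gr_cons] at h
      rcases h with h | ⟨-, h⟩
      · obtain ⟨δ₁, h1, h2⟩ := ap_bas π x δ σ hx
        rw [h1] at h
        obtain ⟨δ', h3, h4⟩ := ih δ₁ τ hw' h
        refine ⟨δ', h3, fun z hz => ?_⟩
        rcases h4 z hz with h5 | ⟨a, ha, haz⟩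
        · rcases h2 z h5 with h6 | h6
          · exact Or.inl h6
          · exact Or.inr ⟨(x, o), by simp, h6.symm⟩
        · exact Or.inr ⟨a, List.mem_cons_of_mem _ ha, haz⟩
      · obtain ⟨δ', h3, h4⟩ := ih δ τ hw' h
        refine ⟨δ', h3, fun z hz => ?_⟩
        rcases h4 z hz with h5 | ⟨a, ha, haz⟩
        · exact Or.inl h5
        · exact Or.inr ⟨a, List.mem_cons_of_mem _ ha, haz⟩
  · intro l
    induction l generalizing δ with
    | nil =>
      intro _
      exact ⟨δ, rfl, fun x hx => Or.inl hx⟩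
    | cons x l ih =>
      intro hl
      obtain ⟨δ₁, h1, h2⟩ := ap_bas π x δ σ (hl x (by simp))
      obtain ⟨δ', h3, h4⟩ := ih δ₁ fun a ha => hl a (List.mem_cons_of_mem _ ha)
      refine ⟨δ', ?_, fun z hz => ?_⟩
      · rw [rd_cons, h1, h3]
      · rcases h4 z hz with h5 | h5
        · rcases h2 z h5 with h6 | h6
          · exact Or.inl h6
          · exact Or.inr (by rw [h6]; simp)
        · exact Or.inr (List.mem_cons_of_mem _ h5)

end Pool.Agent.Helper31.WB
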