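import Pool.Agent.Helper74.WB.St

/-! # Project WB (MP_26f0da_lc): module ENC, the coding -/

set_option autoImplicit false

namespace Pool.Agent.Helper31.WB

open Pool.Agent.Helper74 Pool.Agent.Helper74.WB

theorem hENC (hGRE : StGRE) (hINS : StINS) (hENA : StENA) (hENS : StENS) : StENC := by
  intro Λ w
  refine ⟨hENA Λ w, ?_⟩
  induction hn : w.length using Nat.strong_induction_on generalizing w with
  | _ n ih =>
    intro h
    rcases hENS Λ w h with h1 | ⟨w₁, w₃, w₄, x, o, o', hw, h3, h4⟩
    · exact op_optional w h1
    · subst hw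
      rcases h4 with ⟨rfl, rfl, h5⟩ | ⟨-, h5⟩
      · have h6 : OP (w₁ ++ (x, true) :: w₄) := by
          refine ih _ ?_ _ rfl h5
          rw [← hn]
          simp only [List.length_append, List.length_cons]
          omega
        rw [hGRE] at h6 ⊢
        rw [gr_append] at h6 ⊢
        obtain ⟨ρ, h7, h8⟩ := h6
        have hρ : Red ρ := red_gr w₁ [] ρ red_nil h7
        refine ⟨ρ, h7, ?_⟩
        rw [gr_mand]
        refine gr_skips w₃ _ _ _ h3 ?_
        rw [gr_opt] at h8 ⊢
        rcases h8 with h8 | h8
        · exact Or.inr h8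
        · left
          rw [ap_iv_ap x ρ hρ]
          exact h8
      · have h6 : OP (w₁ ++ w₄) := by
          refine ih _ ?_ _ rfl h5
          rw [← hn]
          simp only [List.length_append, List.length_cons]
          omega
        have h7 : OP ((x, o) :: (w₃ ++ (iv x, o') :: [])) :=
          OP.wrap x o o' w₃ [] (op_optional w₃ h3) OP.nil
        have h8 := hINS Λ w₁ _ w₄ h6 h7
        have e : w₁ ++ (x, o) :: (w₃ ++ (iv x, o') :: w₄) =
            w₁ ++ ((x, o) :: (w₃ ++ (iv x, o') :: []) ++ w₄) := by simp
        rw [e]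
        exact h8

end Pool.Agent.Helper31.WB
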