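import Pool.Agent.Helper74.WB.St

/-! # Project WB (MP_26f0da_lc): module GWB, second part of the gadget -/

set_option autoImplicit false

namespace Pool.Agent.Helper31.WB

open Pool.Agent.Helper74 Pool.Agent.Helper74.WB

/-- letters of `gt g` are public or `(t g, false)` -/
private theorem gt_mem {W : Type} (g : W × List W) (x : Lb W × Bool) (hx : x ∈ gt g) :
    Pb x ∨ x = (.t g, false) := by
  unfold gt gG at hx
  simp only [List.cons_append, List.append_assoc, List.mem_cons, List.mem_append,
    List.mem_map, List.mem_reverse, List.not_mem_nil, or_false, false_or] at hx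
  rcases hx with rfl | rfl | ⟨X, -, rfl⟩ | rfl | rfl
  · exact Or.inl (Or.inl ⟨false, rfl⟩)
  · exact Or.inl (Or.inr ⟨g.1, rfl⟩)
  · exact Or.inl (Or.inr ⟨X, rfl⟩)
  · exact Or.inl (Or.inl ⟨true, rfl⟩)
  · exact Or.inr rfl

private theorem inv_mem {W : Type} (g : W × List W) (x : Lb W × Bool) (hx : x ∈ inv (gt g)) :
    Pb x ∨ x = (.t g, true) := by
  unfold inv at hx
  rw [List.mem_reverse, List.mem_map] at hx
  obtain ⟨y, hy, rfl⟩ := hx
  rcases gt_mem g y hy with h | rfl
  · left
    rcases h with ⟨i, h⟩ | ⟨X, h⟩
    · exact Or.inl ⟨i, h⟩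
    · exact Or.inr ⟨X, h⟩
  · exact Or.inr rfl

private theorem pb_ne {W : Type} (x : Lb W × Bool) (hx : Pb x) (g : W × List W) (s : Bool) :
    x ≠ (.y g, s) := by
  rintro rfl
  rcases hx with ⟨i, h⟩ | ⟨X, h⟩ <;> simp at h

theorem hGWB (hBAS : StBAS) (hPSH : StPSH) : StGWB := by
  intro W rk g σ ξ τ hRc hσ hξ hFr hMid hGr
  obtain ⟨p1, p2, p3, p4⟩ := hPSH
  obtain ⟨hred, -⟩ := p3 W rk g hRc
  obtain ⟨q1, q2, q3, -⟩ := p4 W g
  have hredi := p2 _ _ hred
  -- pushing `gt g` on a stack with the top `(y g, false)`
  have push : ∀ ρ : List (Lb W × Bool), ∃ τ', rd (gt g) ((.y g, false) :: ρ) =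
      (.t g, false) :: (.b true, true) :: (cfg g.2 ++ (.z g.1, false) :: τ') := by
    intro ρ
    have h1 : (gt g).head? = some (.b false, false) := rfl
    rw [p1 _ (gt g) ((.y g, false) :: ρ) hred ?_, q1]
    · exact ⟨(.b false, false) :: (.y g, false) :: ρ, by simp⟩
    · intro x hx y hy
      rw [h1] at hx
      simp only [List.head?_cons, Option.mem_def, Option.some.injEq] at hx hy
      subst hx hy
      simp [iv]
  unfold w2 at hGr
  rw [gr_mands, gr_opt] at hGr
  have hend : ∀ ρ : List (Lb W × Bool), Gr ((gt g).map fun x => (x, false)) ρ τ →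
      rd (gt g) ρ = τ := by
    intro ρ h
    have h1 := (gr_mands (gt g) [] ρ τ).1 (by rw [List.append_nil]; exact h)
    exact h1
  rcases hGr with hGr | hGr
  · -- the optional letter is taken
    have h1 := hend _ hGr
    -- the common conclusion if it is pushed
    have fin : ap ((.y g, false) : Lb W × Bool) (rd (inv (gt g)) ξ) =
        (.y g, false) :: rd (inv (gt g)) ξ → τ = ξ ∨ τ = rd (gt g) σ ∨
        ∃ τ', τ = (.t g, false) :: (.b true, true) :: (cfg g.2 ++ (.z g.1, false) :: τ') := by
      intro h
      rw [h] at h1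
      obtain ⟨τ', h2⟩ := push (rd (inv (gt g)) ξ)
      exact Or.inr (Or.inr ⟨τ', by rw [← h1, h2]⟩)
    -- the case in which the top of `ξ` is not `(t g, false)`
    have free : (∀ x ∈ ξ.head?, x ≠ (.t g, false)) → τ = ξ ∨ τ = rd (gt g) σ ∨
        ∃ τ', τ = (.t g, false) :: (.b true, true) :: (cfg g.2 ++ (.z g.1, false) :: τ') := by
      intro htop
      apply fin
      have h2 : rd (inv (gt g)) ξ = (inv (gt g)).reverse ++ ξ := by
        refine p1 _ _ _ hredi ?_
        intro x hx y hy
        rw [q2] at hx
        simp only [Option.mem_def, Option.some.injEq] at hx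
        subst hx
        exact htop y hy
      refine ap_push' _ _ ?_
      intro z hz
      rw [h2] at hz
      have h3 : ((inv (gt g)).reverse ++ ξ).head? = some (.b false, true) := by
        rw [List.head?_append, List.head?_reverse, q3]
        rfl
      rw [h3] at hz
      simp only [Option.mem_def, Option.some.injEq] at hz
      subst hz
      simp [iv]
    rcases hMid with rfl | ⟨τ', rfl⟩ | ⟨δ, rfl, hδ⟩
    · exact free fun x hx => (hFr x hx).2
    · apply free
      intro x hx
      simp only [List.head?_cons, Option.mem_def, Option.some.injEq] at hx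
      subst hx
      simp
    · have hδ' : ∀ x ∈ δ, x ≠ (.y g, true) := by
        intro x hx
        rcases hδ with h | ⟨δ₀, rfl, h⟩
        · exact pb_ne x (h x hx) g true
        · rcases List.mem_cons.1 hx with rfl | hx
          · simp
          · exact pb_ne x (h x hx) g true
      obtain ⟨δ', h2, h3⟩ := (hBAS _ (.y g, true) δ σ).2 (inv (gt g)) (fun x hx => by
        rcases inv_mem g x hx with h | rfl
        · exact pb_ne x h g false
        · simp [iv])
      cases δ' with
      | nil =>
        rw [h2, List.nil_append] at h1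
        have h4 : ap ((.y g, false) : Lb W × Bool) ((.y g, true) :: σ) = σ := ap_cancel _ σ
        rw [h4] at h1
        exact Or.inr (Or.inl h1.symm)
      | cons x δ'' =>
        apply fin
        rw [h2, List.cons_append]
        refine ap_push _ _ _ ?_
        show x ≠ (.y g, true)
        rcases h3 x (by simp) with h4 | h4
        · exact hδ' x h4
        · rcases inv_mem g x h4 with h | rfl
          · exact pb_ne x h g true
          · simp
  · -- the optional letter is skipped
    left
    rw [← hend _ hGr, rd_inv_rd _ _ hξ]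

end Pool.Agent.Helper31.WB
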